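import Pool.Agent.Helper57.OWN.Cont

set_option autoImplicit false

namespace Pool.Agent.Results.MP_d1450a_gt.NoFiniteWeakCut

open Set Topology

/-- There is a compact connected Hausdorff space `M`, first countable, separable and not metrizable, such that
`M` is semi-locally connected at no point, every point `p` has a partner `q ≠ p` such that every subcontinuum
which is a neighbourhood of one of them contains the other (`M` is aposyndetic at no point), and no finite
set weakly cuts `M`: for every finite set `S` any two points outside `S` are in a subcontinuum disjoint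
from `S`. -/
theorem result :
    ∃ (M : Type) (_ : TopologicalSpace M), CompactSpace M ∧ T2Space M ∧ ConnectedSpace M ∧
      FirstCountableTopology M ∧ TopologicalSpace.SeparableSpace M ∧
      ¬ TopologicalSpace.MetrizableSpace M ∧
      (∀ p : M, ∃ U : Set M, IsOpen U ∧ p ∈ U ∧ ∀ V : Set M, IsOpen V → p ∈ V → V ⊆ U →
        {C : Set M | ∃ x ∈ Vᶜ, C = connectedComponentIn Vᶜ x}.Infinite) ∧
      (∀ p : M, ∃ q : M, q ≠ p ∧
        (∀ H : Set M, IsClosed H → IsConnected H → H ∈ 𝓝 p → q ∈ H) ∧
        ∀ H : Set M, IsClosed H → IsConnected H → H ∈ 𝓝 q → p ∈ H) ∧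
      ∀ S : Set M, S.Finite → ∀ p q : M, p ∉ S → q ∉ S →
        ∃ K : Set M, IsClosed K ∧ IsConnected K ∧ p ∈ K ∧ q ∈ K ∧ Disjoint K S := by
  haveI : ConnectedSpace Circle := by
    haveI : PreconnectedSpace Circle := by
      constructor
      have h : Set.range Circle.exp = Set.univ := by
        rw [Set.eq_univ_iff_forall]
        intro z
        exact ⟨_, Circle.exp_arg z⟩
      rw [← h]
      exact isPreconnected_range Circle.exp.continuous
    exact ⟨inferInstance⟩
  refine ⟨Helper57.Res.M Helper57.Res.F, inferInstance,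
    Helper57.Res.compactSpace_M Helper57.Res.F Helper57.Res.continuousAt_F, inferInstance,
    Helper57.Res.connectedSpace_M Helper57.Res.F Helper57.Res.continuousAt_F,
    Helper57.Res.firstCountable_M, Helper57.Res.separable_M, Helper57.Res.not_metrizable_M,
    ?_, ?_, fun S hS p q hp hq => Helper57.Res.no_finite_cut S hS p q hp hq⟩
  · intro p
    have h := Helper57.Res.not_slc Helper57.Res.F Helper57.Res.continuousAt_F Helper57.Res.H3 p
    by_contra hcon
    apply h
    intro U hU hpU
    by_contra h2
    apply hcon
    refine ⟨U, hU, hpU, fun V hV hpV hVU hfin => ?_⟩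
    exact h2 ⟨V, hV, hpV, hVU, hfin⟩
  · intro p
    obtain ⟨x, y, rfl⟩ : ∃ x y, p = Helper57.Res.e Helper57.Res.F x y :=
      ⟨_, _, Helper57.Res.eq_e Helper57.Res.F p⟩
    refine ⟨Helper57.Res.e Helper57.Res.F x (Helper57.Res.ng * y), ?_, ?_, ?_⟩
    · intro h
      exact Helper57.Res.ng_mul_ne y (Helper57.Res.e_inj x h)
    · intro H h1 h2 h3
      exact Helper57.Res.antipode_mem x y H h1 h2 h3
    · intro H h1 h2 h3
      have h4 := Helper57.Res.antipode_mem x (Helper57.Res.ng * y) H h1 h2 h3
      rwa [← mul_assoc, Helper57.Res.ng_mul_ng, one_mul] at h4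

end Pool.Agent.Results.MP_d1450a_gt.NoFiniteWeakCut
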